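import Pool.Agent.H47.SQ.Targets
import Pool.Agent.H47.PL.FNP
import Pool.Agent.H32.PLN.OSC

/-!
# Row UPB of the board ppz_modules: many variables are forced
-/

set_option autoImplicit false

namespace Pool.Agent.H75.PPZ

open Finset Pool.Agent.H97.RK Pool.Agent.H41.SS
open Pool.Agent.H47.PL (Sat Os mem_Os all_Os cfi mfi card_all)
open Pool.Agent.H47.SR

open Classical in
theorem card_pairs2 {n k m : ℕ} (Q : Fml n k m → (Fin n → Bool) → Prop) :
    (univ.filter fun p : Fml n k m × (Fin n → Bool) => Dist p.1 ∧ Sat p.1 p.2 ∧ Q p.1 p.2).card =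
      ∑ σ : Fin n → Bool,
        (univ.filter fun F : Fml n k m => (∀ c, F c ∈ Os n k σ) ∧ Q F σ).card := by
  rw [card_eq_sum_card_fiberwise (f := Prod.snd) (t := univ) (fun _ _ => mem_univ _)]
  refine sum_congr rfl fun σ _ => ?_
  refine card_bij' (fun p _ => p.1) (fun F _ => (F, σ)) ?_ ?_ ?_ ?_
  · intro p hp
    rw [mem_filter, mem_filter] at hp
    rw [mem_filter, all_Os]
    obtain ⟨⟨-, h1, h2, h3⟩, h4⟩ := hp
    rw [h4] at h2 h3
    exact ⟨mem_univ _, ⟨h1, h2⟩, h3⟩
  · intro F hF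
    rw [mem_filter, all_Os] at hF
    rw [mem_filter, mem_filter]
    exact ⟨⟨mem_univ _, hF.2.1.1, hF.2.1.2, hF.2.2⟩, rfl⟩
  · intro p hp
    rw [mem_filter] at hp
    exact Prod.ext rfl hp.2.symm
  · intro F _
    rfl

/-- the clause `g` forces the variable `v` -/
def FC {n k : ℕ} (σ : Fin n → Bool) (v : Fin n) (g : Fin k → Fin n × Bool) : Prop :=
  ∃ i, (g i).1 = v ∧ σ v = (g i).2 ∧ ∀ j, j ≠ i → (g j).1 < v ∧ σ (g j).1 ≠ (g j).2

open Classical in
/-- the clauses which force a variable in `U` -/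
noncomputable def BU (n k : ℕ) (σ : Fin n → Bool) (U : Finset (Fin n)) :
    Finset (Fin k → Fin n × Bool) := (Os n k σ).filter fun g => ∃ v ∈ U, FC σ v g

theorem mem_BU {n k : ℕ} {σ : Fin n → Bool} {U : Finset (Fin n)} {g : Fin k → Fin n × Bool} :
    g ∈ BU n k σ U ↔ g ∈ Os n k σ ∧ ∃ v ∈ U, FC σ v g := by
  classical
  unfold BU
  rw [mem_filter]

/-- the clause with the true literal of `v` at the place `i` and the other variables given by `e` -/
def mkc {n k' h : ℕ} (σ : Fin n → Bool)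
    (q : Fin n × Fin (k' + 1) × (Fin k' ↪ Fin (n - h))) : Fin (k' + 1) → Fin n × Bool :=
  Fin.insertNth (α := fun _ => Fin n × Bool) q.2.1 (q.1, σ q.1)
    (fun j => (Fin.castLE (Nat.sub_le n h) (q.2.2 j),
      !σ (Fin.castLE (Nat.sub_le n h) (q.2.2 j))))

theorem mkc_same {n k' h : ℕ} (σ : Fin n → Bool)
    (q : Fin n × Fin (k' + 1) × (Fin k' ↪ Fin (n - h))) : mkc σ q q.2.1 = (q.1, σ q.1) := by
  unfold mkc
  rw [Fin.insertNth_apply_same]

theorem mkc_succ {n k' h : ℕ} (σ : Fin n → Bool)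
    (q : Fin n × Fin (k' + 1) × (Fin k' ↪ Fin (n - h))) (j : Fin k') :
    mkc σ q (q.2.1.succAbove j) = (Fin.castLE (Nat.sub_le n h) (q.2.2 j),
      !σ (Fin.castLE (Nat.sub_le n h) (q.2.2 j))) := by
  unfold mkc
  rw [Fin.insertNth_apply_succAbove]

theorem mkc_mem {n k' h : ℕ} (σ : Fin n → Bool) (U : Finset (Fin n))
    (hU : ∀ v ∈ U, n ≤ v.1 + h) (q : Fin n × Fin (k' + 1) × (Fin k' ↪ Fin (n - h)))
    (hq : q.1 ∈ U) : mkc σ q ∈ BU n (k' + 1) σ U := by
  have hv := hU _ hq
  have hlt : ∀ j, (Fin.castLE (Nat.sub_le n h) (q.2.2 j)).1 < q.1.1 := by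
    intro j
    have := (q.2.2 j).2
    simp only [Fin.val_castLE]
    omega
  rw [mem_BU, mem_Os, mem_Om]
  refine ⟨⟨?_, q.2.1, ?_⟩, q.1, hq, q.2.1, ?_, ?_, ?_⟩
  · intro a b hab
    simp only at hab
    rcases Fin.eq_self_or_eq_succAbove q.2.1 a with ha | ⟨a', ha⟩
    · rcases Fin.eq_self_or_eq_succAbove q.2.1 b with hb | ⟨b', hb⟩
      · rw [ha, hb]
      · exfalso
        rw [ha, hb, mkc_same, mkc_succ] at hab
        simp only at hab
        have := hlt b'
        rw [← hab] at this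
        omega
    · rcases Fin.eq_self_or_eq_succAbove q.2.1 b with hb | ⟨b', hb⟩
      · exfalso
        rw [ha, hb, mkc_same, mkc_succ] at hab
        simp only at hab
        have := hlt a'
        rw [hab] at this
        omega
      · rw [ha, hb, mkc_succ, mkc_succ] at hab
        simp only at hab
        have h1 := q.2.2.injective (Fin.castLE_injective (Nat.sub_le n h) hab)
        rw [ha, hb, h1]
  · rw [mkc_same]
  · rw [mkc_same]
  · rw [mkc_same]
  · intro j hj
    rcases Fin.eq_self_or_eq_succAbove q.2.1 j with hb | ⟨j', hb⟩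
    · exact absurd hb hj
    · rw [hb, mkc_succ]
      refine ⟨hlt j', ?_⟩
      simp only
      intro hh
      exact (Bool.eq_not_self _).1 hh

theorem mkc_inj {n k' h : ℕ} (σ : Fin n → Bool) :
    Function.Injective (mkc (n := n) (k' := k') (h := h) σ) := by
  intro q q' hqq
  have h1 : q.2.1 = q'.2.1 := by
    by_contra hne
    obtain ⟨j, hj⟩ := Fin.exists_succAbove_eq hne
    have h2 := congrFun hqq q.2.1
    rw [mkc_same, ← hj, mkc_succ, Prod.mk.injEq] at h2
    obtain ⟨h3, h4⟩ := h2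
    rw [← h3] at h4
    exact (Bool.eq_not_self _).1 h4
  have h2 : q.1 = q'.1 := by
    have h3 := congrFun hqq q.2.1
    rw [mkc_same, h1, mkc_same, Prod.mk.injEq] at h3
    exact h3.1
  have h3 : q.2.2 = q'.2.2 := by
    apply DFunLike.ext
    intro j
    have h4 := congrFun hqq (q.2.1.succAbove j)
    rw [mkc_succ, h1, mkc_succ, Prod.mk.injEq] at h4
    exact Fin.castLE_injective (Nat.sub_le n h) h4.1
  exact Prod.ext h2 (Prod.ext h1 h3)

theorem card_BU {n k' h : ℕ} (σ : Fin n → Bool) (U : Finset (Fin n))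
    (hU : ∀ v ∈ U, n ≤ v.1 + h) :
    U.card * ((k' + 1) * (n - h).descFactorial k') ≤ (BU n (k' + 1) σ U).card := by
  classical
  have h1 : (U ×ˢ ((univ : Finset (Fin (k' + 1))) ×ˢ
      (univ : Finset (Fin k' ↪ Fin (n - h))))).card =
      U.card * ((k' + 1) * (n - h).descFactorial k') := by
    rw [card_product, card_product, card_univ, card_univ, Fintype.card_fin,
      Fintype.card_embedding_eq, Fintype.card_fin, Fintype.card_fin]
  rw [← h1]
  refine card_le_card_of_injOn (mkc σ) ?_ ((mkc_inj σ).injOn)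
  intro q hq
  rw [mem_coe, mem_product] at hq
  exact mkc_mem σ U hU q hq.1

/-- the number of the formulas for which no variable in `U` is forced -/
theorem card_U {n k m h u M : ℕ} (hk : 1 ≤ k) (σ : Fin n → Bool) (U : Finset (Fin n))
    (hU : ∀ v ∈ U, n ≤ v.1 + h) (hu : U.card = u) (hM : (Os n k σ).card = M) (hM0 : 0 < M) :
    ((Fintype.piFinset fun _ : Fin m => Os n k σ \ BU n k σ U).card : ℝ) ≤
      ((1 - u * (k * ((n - h).descFactorial (k - 1) : ℝ) / M)) * M) ^ m := by
  classical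
  obtain ⟨k', rfl⟩ : ∃ k', k = k' + 1 := ⟨k - 1, by omega⟩
  rw [Nat.add_sub_cancel]
  have hMR : (0 : ℝ) < M := by exact_mod_cast hM0
  have h1 := card_BU (k' := k') σ U hU
  have hsub : BU n (k' + 1) σ U ⊆ Os n (k' + 1) σ := fun g hg => (mem_BU.1 hg).1
  have h2 := card_sdiff_add_card_eq_card hsub
  rw [Fintype.card_piFinset_const]
  push_cast
  refine pow_le_pow_left₀ (Nat.cast_nonneg _) ?_ m
  have h3 : ((Os n (k' + 1) σ \ BU n (k' + 1) σ U).card : ℝ) +
      ((BU n (k' + 1) σ U).card : ℝ) = M := by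
    rw [← hM]
    exact_mod_cast h2
  have h4 : (u : ℝ) * ((k' + 1) * ((n - h).descFactorial k' : ℝ)) ≤
      ((BU n (k' + 1) σ U).card : ℝ) := by
    rw [← hu]
    exact_mod_cast h1
  have h5 : (1 - (u : ℝ) * (((k' : ℝ) + 1) * ((n - h).descFactorial k' : ℝ) / M)) * M =
      M - u * ((k' + 1) * ((n - h).descFactorial k' : ℝ)) := by
    field_simp
  rw [h5]
  linarith

open Classical in
/-- **UPB.** -/
theorem pf_UPB : T_UPB := by
  intro n k m h u hk hkn hh hu
  set M : ℕ := (2 ^ k - 1) * n.descFactorial k with hMdef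
  have hM : ∀ σ : Fin n → Bool, (Os n k σ).card = M := fun σ =>
    (Pool.Agent.H32.PLN.pf_OSC n k σ σ).1
  have h2k : 1 < 2 ^ k := Nat.one_lt_two_pow (by omega)
  have hM0 : 0 < M := Nat.mul_pos (by omega) (Nat.descFactorial_pos.2 hkn)
  have hMR : ((2 : ℝ) ^ k - 1) * (n.descFactorial k : ℝ) = (M : ℝ) := by
    rw [hMdef]
    push_cast [Nat.cast_sub h2k.le]
    ring
  rw [hMR]
  set P : ℝ := 1 - u * (k * ((n - h).descFactorial (k - 1) : ℝ) / M) with hP
  -- the sets of the last variables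
  set T : Finset (Fin n) := univ.filter fun v : Fin n => n ≤ v.1 + h with hT
  have hTc : T.card ≤ h := by
    have h1 : T.card ≤ (Finset.Ico (n - h) n).card := by
      refine card_le_card_of_injOn (fun v => v.1) ?_ (Fin.val_injective.injOn)
      intro v hv
      have h2 : n ≤ v.1 + h := (mem_filter.1 (mem_coe.1 hv)).2
      have h3 : n - h ≤ v.1 := by omega
      rw [mem_coe, mem_Ico]
      exact ⟨h3, v.2⟩
    rw [Nat.card_Ico] at h1
    omega
  have hTc' : h ≤ T.card := by
    have h1 : (univ : Finset (Fin h)).card ≤ T.card := by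
      refine card_le_card_of_injOn (fun i : Fin h => (⟨n - h + i.1, by omega⟩ : Fin n)) ?_ ?_
      · intro i _
        rw [mem_coe, hT, mem_filter]
        refine ⟨mem_univ _, ?_⟩
        simp only
        omega
      · intro i _ j _ hij
        simp only [Fin.mk.injEq] at hij
        exact Fin.ext (by omega)
    rwa [card_univ, Fintype.card_fin] at h1
  have hσ : ∀ σ : Fin n → Bool, (((univ.filter fun F : Fml n k m => (∀ c, F c ∈ Os n k σ) ∧
      u ≤ (univ.filter fun v : Fin n => n ≤ v.1 + h ∧ ¬ Frc F σ v).card)).card : ℝ) ≤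
      2 ^ h * (P * M) ^ m := by
    intro σ
    have h1 : (univ.filter fun F : Fml n k m => (∀ c, F c ∈ Os n k σ) ∧
        u ≤ (univ.filter fun v : Fin n => n ≤ v.1 + h ∧ ¬ Frc F σ v).card) ⊆
        (T.powersetCard u).biUnion fun U =>
          Fintype.piFinset fun _ : Fin m => Os n k σ \ BU n k σ U := by
      intro F hF
      obtain ⟨-, h2, h3⟩ := mem_filter.1 hF
      obtain ⟨U, h4, h5⟩ := exists_subset_card_eq h3
      rw [mem_biUnion]
      refine ⟨U, ?_, ?_⟩
      · rw [mem_powersetCard]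
        refine ⟨fun v hv => ?_, h5⟩
        rw [hT, mem_filter]
        exact ⟨mem_univ _, (mem_filter.1 (h4 hv)).2.1⟩
      · rw [Fintype.mem_piFinset]
        intro c
        rw [mem_sdiff, mem_BU]
        refine ⟨h2 c, ?_⟩
        rintro ⟨-, v, hv, hf⟩
        obtain ⟨i, hi⟩ := hf
        exact (mem_filter.1 (h4 hv)).2.2 ⟨c, i, hi⟩
    have h2 : ∀ U ∈ T.powersetCard u,
        ((Fintype.piFinset fun _ : Fin m => Os n k σ \ BU n k σ U).card : ℝ) ≤ (P * M) ^ m := by
      intro U hU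
      rw [mem_powersetCard] at hU
      exact card_U hk σ U (fun v hv => (mem_filter.1 (hU.1 hv)).2) hU.2 (hM σ) hM0
    have h3 : ((T.powersetCard u).card : ℝ) ≤ 2 ^ h := by
      rw [card_powersetCard]
      have h4 : T.card.choose u ≤ 2 ^ T.card := Nat.choose_le_two_pow _ _
      have h5 : 2 ^ T.card ≤ 2 ^ h := Nat.pow_le_pow_right (by norm_num) hTc
      exact_mod_cast h4.trans h5
    have hne : (T.powersetCard u).Nonempty := powersetCard_nonempty.2 (hu.trans hTc')
    obtain ⟨U₀, hU₀⟩ := hne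
    have hPM : 0 ≤ (P * M) ^ m := (Nat.cast_nonneg _).trans (h2 U₀ hU₀)
    calc (((univ.filter fun F : Fml n k m => (∀ c, F c ∈ Os n k σ) ∧
          u ≤ (univ.filter fun v : Fin n => n ≤ v.1 + h ∧ ¬ Frc F σ v).card)).card : ℝ)
        ≤ ∑ U ∈ T.powersetCard u,
          ((Fintype.piFinset fun _ : Fin m => Os n k σ \ BU n k σ U).card : ℝ) := by
          exact_mod_cast (card_le_card h1).trans card_biUnion_le
      _ ≤ ∑ _U ∈ T.powersetCard u, (P * M) ^ m := sum_le_sum h2
      _ = ((T.powersetCard u).card : ℝ) * (P * M) ^ m := by rw [sum_const, nsmul_eq_mul]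
      _ ≤ 2 ^ h * (P * M) ^ m := mul_le_mul_of_nonneg_right h3 hPM
  have e1 := card_pairs2 (n := n) (k := k) (m := m) (fun F σ =>
    u ≤ (univ.filter fun v : Fin n => n ≤ v.1 + h ∧ ¬ Frc F σ v).card)
  have e2 := card_all (n := n) (k := k) (m := m) M hM
  refine (le_of_eq (congrArg Nat.cast ((cfi fun p => Iff.rfl).trans e1))).trans ?_
  refine le_trans ?_ (le_of_eq (congrArg (fun x : ℕ => 2 ^ h * P ^ m * (x : ℝ))
    ((cfi fun p => Iff.rfl).trans e2)).symm)
  push_cast
  refine (sum_le_sum (g := fun _ => 2 ^ h * (P * M) ^ m) fun σ _ => ?_).trans (le_of_eq ?_)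
  · exact (le_of_eq (congrArg Nat.cast (cfi fun F => Iff.rfl))).trans (hσ σ)
  · rw [sum_const, card_univ, Fintype.card_fun, Fintype.card_fin, Fintype.card_bool,
      nsmul_eq_mul, mul_pow]
    push_cast
    ring

end Pool.Agent.H75.PPZ
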