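import Pool.Agent.H47.SQ.Targets4
import Pool.Agent.H45.SQP.EXU

/-!
# Search on random k-CNFs (MP_c62aed_lc), row ZEV: the bad solutions of the uniform formulas

Adapted from the module EXV of helper86: any width `d` instead of `128 t`.
-/

set_option autoImplicit false

namespace Pool.Agent.H75.PPZ

open Finset Pool.Agent.H97.RK Pool.Agent.H41.SS Pool.Agent.H47.SR Pool.Agent.H45.SQP
open Pool.Agent.H47.PL (Sat Os)

open Classical in
theorem badw_le {n k m : ℕ} (F : Fml n k m) (t d r : ℕ) :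
    (badw F t d r : ℝ) ≤ ∑ τ : Fin n → Bool, ∑ z ∈ univ.filter fun z : Fin n → Bool =>
      dst z τ ≤ r,
      if Sat F τ ∧ ¬ Gd F t d (12 * t) z then (1 : ℝ) else 0 := by
  unfold badw
  rw [card_filter]
  push_cast
  refine Finset.sum_le_sum fun τ _ => ?_
  have hnn : ∀ z ∈ univ.filter fun z : Fin n → Bool => dst z τ ≤ r,
      (0 : ℝ) ≤ if Sat F τ ∧ ¬ Gd F t d (12 * t) z then (1 : ℝ) else 0 := by
    intro z _
    split_ifs <;> norm_num
  split_ifs with h
  · obtain ⟨h1, h2⟩ := h
    push Not at h2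
    obtain ⟨z, hz1, hz2⟩ := h2
    have h3 := Finset.single_le_sum hnn (mem_filter.2 ⟨mem_univ z, hz1⟩)
    rw [if_pos ⟨h1, hz2⟩] at h3
    exact h3
  · exact Finset.sum_nonneg hnn

open Classical in
theorem pf_ZEV (hPGO : T_PGO) (hOSC : Pool.Agent.H47.PL.T_OSC) : T_ZEV := by
  intro n k m t d r hk hkn htn
  have hq : ∀ τ : Fin n → Bool, (Os n k τ).card = (2 ^ k - 1) * n.descFactorial k :=
    fun τ => (hOSC n k τ τ).1
  have hOm : ∀ τ : Fin n → Bool, Os n k τ ⊆ Om n k := fun τ => filter_subset _ _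
  have h2k : 2 ^ k ≤ 2 * (2 ^ k - 1) := by
    have h1 : 2 ^ 1 ≤ 2 ^ k := Nat.pow_le_pow_right (by norm_num) hk
    omega
  have hOm2 : ∀ τ : Fin n → Bool, (Om n k).card ≤ 2 * (Os n k τ).card := by
    intro τ
    rw [hq, card_Om, ← mul_assoc]
    exact Nat.mul_le_mul_right _ h2k
  set Q : ℝ := (((2 ^ k - 1) * n.descFactorial k : ℕ) : ℝ) with hQ
  set P := prb n k m t d (12 * t) with hP
  have hterm : ∀ (τ z : Fin n → Bool),
      (∑ F ∈ univ.filter fun F : Fml n k m => Dist F,
        if Sat F τ ∧ ¬ Gd F t d (12 * t) z then (1 : ℝ) else 0) ≤ P * Q ^ m := by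
    intro τ z
    have h1 := hPGO n k m t d (12 * t) (Os n k τ) (by omega) hkn (by omega) (hOm τ)
      (hOm2 τ) z
    rw [hq] at h1
    refine le_trans (le_of_eq ?_) h1
    rw [← Finset.sum_filter, Finset.sum_const, nsmul_eq_mul, mul_one, filter_filter]
    congr 2
    ext F
    simp only [mem_filter, mem_univ, true_and]
    rw [← dist_sat_iff]
    tauto
  have hPQ : 0 ≤ P * Q ^ m := by
    refine le_trans ?_ (hterm (fun _ => true) fun _ => true)
    refine Finset.sum_nonneg fun F _ => ?_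
    split_ifs <;> norm_num
  calc (∑ F ∈ univ.filter fun F : Fml n k m => Dist F, (badw F t d r : ℝ))
      ≤ ∑ F ∈ univ.filter fun F : Fml n k m => Dist F, ∑ τ : Fin n → Bool,
        ∑ z ∈ univ.filter fun z : Fin n → Bool => dst z τ ≤ r,
          if Sat F τ ∧ ¬ Gd F t d (12 * t) z then (1 : ℝ) else 0 :=
        Finset.sum_le_sum fun F _ => badw_le F t d r
    _ = ∑ τ : Fin n → Bool,
        ∑ z ∈ univ.filter fun z : Fin n → Bool => dst z τ ≤ r,
          ∑ F ∈ univ.filter fun F : Fml n k m => Dist F,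
          if Sat F τ ∧ ¬ Gd F t d (12 * t) z then (1 : ℝ) else 0 := by
        rw [Finset.sum_comm]
        refine Finset.sum_congr rfl fun τ _ => ?_
        rw [Finset.sum_comm]
    _ ≤ ∑ τ : Fin n → Bool,
        ∑ z ∈ univ.filter fun z : Fin n → Bool => dst z τ ≤ r,
          P * Q ^ m :=
        Finset.sum_le_sum fun τ _ => Finset.sum_le_sum fun z _ => hterm τ z
    _ ≤ ∑ _τ : Fin n → Bool, (bl n r : ℝ) * (P * Q ^ m) := by
        refine Finset.sum_le_sum fun τ _ => ?_
        rw [Finset.sum_const, nsmul_eq_mul]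
        refine mul_le_mul_of_nonneg_right ?_ hPQ
        exact_mod_cast card_dst n _ τ
    _ = 2 ^ n * ((bl n r : ℝ) * (P * Q ^ m)) := by
        rw [Finset.sum_const, card_univ, Fintype.card_fun, Fintype.card_bool, Fintype.card_fin,
          nsmul_eq_mul]
        push_cast
        rfl
    _ = bl n r * P *
        (univ.filter fun p : Fml n k m × (Fin n → Bool) => Dist p.1 ∧ Sat p.1 p.2).card := by
        rw [card_pairs n k m hOSC]
        ring

end Pool.Agent.H75.PPZ
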